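import Pool.Agent.CYL.N.Main

/-!
Honeycomb lattice on a cylinder: the event of Q1 for two independent critical self-avoiding paths which start at the
same vertex and cross the cylinder has a probability which decays exponentially in the length of the cylinder, and the
rate times the circumference tends to the value predicted by the Coulomb gas and by conformal field theory: the
exponent is `11/24`.
-/

namespace Pool.Agent.Results.MP_8c6f77_pr.CylinderExponent

open Pool.Agent.CYL.Plane

/-- Let `w`, `w'` be two independent critical self-avoiding paths from `0` across `N` columns of the honeycomb lattice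
on the cylinder of circumference `√3 L` (the sums of the weights are finite), and let `P L N` be the probability that
`w{1,...}` and `w'{0,...}` are disjoint. For every `L ≥ 3`, `-log (P L N) / N` has a limit `κ L` as `N → ∞`, and
`L κ L → (11 / 24) √3 π` as `L → ∞`. -/
theorem result :
    (∀ L N : ℕ, 2 ≤ L → 1 ≤ N → Summable fun w : Cross L N => wt w.1) ∧
    ∃ κ : ℕ → ℝ,
      (∀ L : ℕ, 3 ≤ L →
        Filter.Tendsto (fun N : ℕ => -Real.log (P L N) / N) Filter.atTop (nhds (κ L))) ∧
      Filter.Tendsto (fun L : ℕ => (L : ℝ) * κ L) Filter.atTop (nhds (11 / 24 * Real.sqrt 3 * Real.pi)) :=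
  Pool.Agent.CYL.final_all

end Pool.Agent.Results.MP_8c6f77_pr.CylinderExponent
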