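import Pool.Agent.CYL.T.Uni

/-!
Two regular planar lattices, the honeycomb lattice and the lattice `(3,12^2)`, on a cylinder: the event of Q1 for two
independent critical self-avoiding paths which start at the same vertex and cross the cylinder. Its probability decays
exponentially in the length of the cylinder, up to polynomial factors which are uniform in the length and in the
circumference, and the rate times the circumference tends to the value predicted by the Coulomb gas and by conformal
field theory: the exponent is `11/24`, on both lattices.
-/

namespace Pool.Agent.Results.MP_8c6f77_pr.CylinderExponent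

open Pool.Agent.Hhelper64.Two Pool.Agent.CYL.Two

/-- Let `w`, `w'` be two independent critical self-avoiding paths from `0` across `N` columns of the lattice `G` on the
cylinder of circumference `s L` (the sums of the weights are finite), `(G, s) = (honeycomb, √3)` or
`(truncated, 2 + √3)`, and let `P G s L N` be the probability that `w{1,...}` and `w'{0,...}` are disjoint. There are
`C` and `κ L`, the same for both lattices, with `|log (P G s L N) + κ L * N| ≤ C log (L N)` for all `L ≥ 3`, `N ≥ 1`, and
`L κ L → (11 / 24) √3 π` as `L → ∞`. -/
theorem result : ∃ κ : ℕ → ℝ,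
    Filter.Tendsto (fun L : ℕ => (L : ℝ) * κ L) Filter.atTop (nhds (11 / 24 * Real.sqrt 3 * Real.pi)) ∧
    ∃ C : ℝ, 0 < C ∧ ∀ (G : Set ℂ) (s : ℝ), (G = honeycomb ∧ s = Real.sqrt 3) ∨ (G = truncated ∧ s = 2 + Real.sqrt 3) →
      ∀ L N : ℕ, 3 ≤ L → 1 ≤ N → (Summable fun w : Cross G s L N => wt G w.1) ∧
        0 < P G s L N ∧ |Real.log (P G s L N) + κ L * N| ≤ C * Real.log (L * N) :=
  Pool.Agent.CYL.T.uniform_two

end Pool.Agent.Results.MP_8c6f77_pr.CylinderExponent
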